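import Pool.Agent.Helper67.KPG.St2

/-! Project KP (MP_26be5b_ag, owners helper52, helper67), module CON: the open orbit in
`g_(≥ 2)`. -/

set_option autoImplicit false

namespace Pool.Agent.Helper7.KPG

open Pool.Agent.Helper67.NO Pool.Agent.Helper52.KP Pool.Agent.Helper67.KPG
open scoped Topology

universe u

section
variable {g : Type u} [LieRing g] [LieAlgebra ℂ g] [FiniteDimensional ℂ g]

private lemma size_smul (c : ℂ) (x : g) : size (c • x) = ‖c‖ * size x := by
  unfold size
  rw [Finset.mul_sum]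
  refine Finset.sum_congr rfl fun i _ => ?_
  rw [map_smul, Finsupp.smul_apply, smul_eq_mul, norm_mul]

private lemma size_nonneg (x : g) : 0 ≤ size x :=
  Finset.sum_nonneg fun _ _ => norm_nonneg _

end

theorem hCON (hOPN : StOPN.{u}) (hHPC : StHPC.{u}) (hBAS : StBAS.{u}) (hBAE : StBAE.{u})
    (hGPF : StGPF.{u}) : StCON.{u} := by
  intro g _ _ _ e h f N pr hSl
  have hF := hBAS g e h f N pr hSl
  have hE := hBAE g e h f N pr hSl
  have hG := hGPF g
  have hH := hHPC g
  set Q : Submodule ℂ g := ge pr 2 with hQ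
  set P : Submodule ℂ g := ge pr 0 with hP
  set b := Module.finBasis ℂ Q with hb
  set n := Module.finrank ℂ Q with hn
  choose β hβ using fun a : Fin n => (b.coord a).exists_extend
  have hβ' : ∀ a (v : Q), β a (v : g) = b.repr v a := fun a v => by
    have h1 := LinearMap.congr_fun (hβ a) v
    simpa using h1
  choose c hc hce using fun i : Fin n => hE.surj (b i : g) (b i).2
  have heQ : e ∈ Q := hF.e2.1
  have hPQ : ∀ v ∈ P, ∀ x ∈ Q, ⁅v, x⁆ ∈ Q := fun v hv x hx => by
    have h1 := hF.brge 0 2 v x hv hx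
    simpa using h1
  set M : g → Matrix (Fin n) (Fin n) ℂ := fun y => Matrix.of fun a i => β a ⁅c i, y⁆ with hM
  have hMapp : ∀ y a i, M y a i = β a ⁅c i, y⁆ := fun y a i => rfl
  have hMe : M e = 1 := by
    ext a i
    rw [hMapp, hce, hβ', Module.Basis.repr_self, Finsupp.single_apply, Matrix.one_apply]
    simp only [eq_comm]
  refine ⟨n * 1, fun x => (M x).det, hH.det 1 n M fun a i => ?_, ?_, ?_⟩
  · exact hH.lin (β a ∘ₗ (LieAlgebra.ad ℂ g (c i) : g →ₗ[ℂ] g))
  · simp only
    rw [hMe, Matrix.det_one]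
    exact one_ne_zero
  intro y hy hdet
  -- surjectivity at the points with nonzero determinant
  have hsurj : ∀ y ∈ Q, (M y).det ≠ 0 → ∀ v ∈ Q, ∃ x ∈ P, ⁅x, y⁆ = v := by
    intro y hy hdet v hv
    set t : Fin n → ℂ := (M y)⁻¹.mulVec (fun a => β a v) with ht
    have hxP : ∑ i, t i • c i ∈ P := Submodule.sum_mem _ fun i _ => Submodule.smul_mem _ _ (hc i)
    refine ⟨∑ i, t i • c i, hxP, ?_⟩
    have h1 : ∀ a, β a ⁅∑ i, t i • c i, y⁆ = β a v := by
      intro a
      have h2 : (M y).mulVec t = fun a => β a v := by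
        rw [ht, Matrix.mulVec_mulVec, Matrix.mul_nonsing_inv _ (isUnit_iff_ne_zero.2 hdet),
          Matrix.one_mulVec]
      have h3 := congrFun h2 a
      rw [sum_lie, map_sum]
      rw [← h3]
      simp only [Matrix.mulVec, dotProduct, smul_lie, map_smul, smul_eq_mul]
      exact Finset.sum_congr rfl fun i _ => mul_comm _ _
    have h4 : (⟨⁅∑ i, t i • c i, y⁆, hPQ _ hxP _ hy⟩ : Q) = ⟨v, hv⟩ := by
      refine b.repr.injective ?_
      ext a
      rw [← hβ', ← hβ']
      exact h1 a
    exact congrArg Subtype.val h4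
  -- the line
  set l : ℂ → g := fun s => e + s • (y - e) with hl
  have hlQ : ∀ s, l s ∈ Q := fun s =>
    Submodule.add_mem _ heQ (Submodule.smul_mem _ _ (Submodule.sub_mem _ hy heQ))
  set p : Polynomial ℂ := (Matrix.of fun a i => Polynomial.C (M e a i) +
    Polynomial.X * Polynomial.C (M y a i - M e a i)).det with hp
  have hpe : ∀ s, p.eval s = (M (l s)).det := by
    intro s
    have h1 : p.eval s = Polynomial.evalRingHom s p := rfl
    rw [h1, hp, RingHom.map_det]
    congr 1
    ext a i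
    simp only [RingHom.mapMatrix_apply, Matrix.map_apply, Matrix.of_apply,
      Polynomial.coe_evalRingHom, Polynomial.eval_add, Polynomial.eval_mul, Polynomial.eval_C,
      Polynomial.eval_X]
    rw [hMapp, hMapp, hMapp, hl]
    simp only [lie_add, lie_smul, lie_sub, map_add, map_smul, map_sub, smul_eq_mul]
  have hl0 : l 0 = e := by rw [hl]; simp
  have hl1 : l 1 = y := by rw [hl]; simp
  have hp0 : p ≠ 0 := by
    intro h0
    have h1 := hpe 0
    rw [h0, Polynomial.eval_zero, hl0, hMe, Matrix.det_one] at h1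
    exact zero_ne_one h1
  set T : Set ℂ := {s | p.IsRoot s}ᶜ with hT
  have hTc : IsPreconnected T := by
    have h1 : {s | p.IsRoot s}.Countable := (Polynomial.finite_setOf_isRoot hp0).countable
    exact (h1.isPathConnected_compl_of_one_lt_rank (by
      rw [Complex.rank_real_complex]; exact Nat.one_lt_ofNat)).isConnected.isPreconnected
  have h0T : (0 : ℂ) ∈ T := by
    show ¬ p.eval 0 = 0
    rw [hpe, hl0, hMe, Matrix.det_one]
    exact one_ne_zero
  have h1T : (1 : ℂ) ∈ T := by
    show ¬ p.eval 1 = 0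
    rw [hpe, hl1]
    exact hdet
  haveI : PreconnectedSpace T := Subtype.preconnectedSpace hTc
  set φ : T → Prop := fun s => ∃ b, GP P b ∧ b e = l s with hφ
  have hloc : IsLocallyConstant φ := by
    rw [IsLocallyConstant.iff_eventually_eq]
    rintro ⟨s, hs⟩
    have hs' : (M (l s)).det ≠ 0 := by
      rw [← hpe]
      exact hs
    obtain ⟨ε, hε, h1⟩ := hOPN g P Q hPQ (l s) (hlQ s) (hsurj (l s) (hlQ s) hs')
    set S : ℝ := size (y - e) + 1 with hS
    have hS0 : 0 < S := by have := size_nonneg (y - e); linarith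
    have h2 : ∀ᶠ s' : T in 𝓝 ⟨s, hs⟩, ‖(s' : ℂ) - s‖ < ε / S := by
      have h3 : Continuous fun s' : T => ‖(s' : ℂ) - s‖ := by fun_prop
      have h4 : (fun s' : T => ‖(s' : ℂ) - s‖) ⟨s, hs⟩ < ε / S := by
        simp only [sub_self, norm_zero]
        positivity
      exact h3.continuousAt.eventually (gt_mem_nhds h4)
    filter_upwards [h2] with s' hs2
    have h5 : size (l s' - l s) < ε := by
      have h6 : l s' - l s = ((s' : ℂ) - s) • (y - e) := by
        rw [hl]
        simp only
        rw [sub_smul]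
        abel
      rw [h6, size_smul]
      calc ‖(s' : ℂ) - s‖ * size (y - e) ≤ ‖(s' : ℂ) - s‖ * S :=
            mul_le_mul_of_nonneg_left (by linarith) (norm_nonneg _)
        _ < ε / S * S := mul_lt_mul_of_pos_right hs2 hS0
        _ = ε := by field_simp
    obtain ⟨x, hx, hxe⟩ := h1 (l s') (hlQ s') h5
    refine propext ⟨?_, ?_⟩
    · rintro ⟨w, hw, hwe⟩
      refine ⟨expAd (-x) ∘ₗ w, GP.step w (-x) hw (Submodule.neg_mem _ hx), ?_⟩
      rw [LinearMap.comp_apply, hwe, ← hxe]
      exact (hG.neg x (l s)).1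
    · rintro ⟨w, hw, hwe⟩
      refine ⟨expAd x ∘ₗ w, GP.step w x hw hx, ?_⟩
      rw [LinearMap.comp_apply, hwe]
      exact hxe
  have h6 := hloc.apply_eq_of_preconnectedSpace ⟨0, h0T⟩ ⟨1, h1T⟩
  have h7 : φ ⟨0, h0T⟩ := ⟨LinearMap.id, GP.one, by
    show e = l 0
    rw [hl0]⟩
  rw [h6] at h7
  obtain ⟨w, hw, hwe⟩ := h7
  exact ⟨w, hw, hwe.trans hl1⟩

end Pool.Agent.Helper7.KPG
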