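import Pool.Agent.Helper67.KPG.St2
import Pool.Agent.Helper67.KPG.St3

/-! Project KP (MP_26be5b_ag, owners helper52, helper67), module PHI: the chart is polynomial and
homogeneous. -/

set_option autoImplicit false

namespace Pool.Agent.Helper7.KPG

open Pool.Agent.Helper67.NO Pool.Agent.Helper52.KP Pool.Agent.Helper67.KPG

universe u

theorem hPHI (hBAS : StBAS.{u}) (hGPF : StGPF.{u}) (hPVC : StPVC.{u}) : StPHI.{u} := by
  intro g _ _ _ e h f N pr hSl m w E hB
  have hF := hBAS g e h f N pr hSl
  have hG := hGPF g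
  have hP := hPVC g m
  have huu : ∀ z, uu w E z ∈ le pr (-1) := fun z => by
    unfold uu
    refine Submodule.sum_mem _ fun j _ => ?_
    split_ifs with hj
    · exact Submodule.smul_mem _ _ (hB.m0 j hj)
    · exact Submodule.zero_mem _
  have hyy : ∀ z, yy w E z ∈ ge pr 2 := fun z => by
    unfold yy
    refine Submodule.sum_mem _ fun j _ => ?_
    split_ifs with hj
    · exact Submodule.smul_mem _ _ (hB.m1 j hj)
    · exact Submodule.zero_mem _
  have hser : ∀ z, phi w E z = ∑ i ∈ Finset.range (2 * N + 1), ((i.factorial : ℂ)⁻¹) •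
      ((LieAlgebra.ad ℂ g (uu w E z) : Module.End ℂ g) ^ i) (yy w E z) := fun z =>
    hG.ser (uu w E z) (yy w E z) (2 * N + 1) (hF.nil0 _ (huu z) _)
  have hphi : PV (phi w E) := by
    have e1 : phi w E = fun z => ∑ i ∈ Finset.range (2 * N + 1), ((i.factorial : ℂ)⁻¹) •
      ((LieAlgebra.ad ℂ g (uu w E z) : Module.End ℂ g) ^ i) (yy w E z) := funext hser
    rw [e1]
    refine hP.vsum ℕ _ (fun i z => ((i.factorial : ℂ)⁻¹) •
      ((LieAlgebra.ad ℂ g (uu w E z) : Module.End ℂ g) ^ i) (yy w E z)) fun i _ => ?_
    exact hP.vsmul (fun _ => (i.factorial : ℂ)⁻¹)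
      (fun z => ((LieAlgebra.ad ℂ g (uu w E z) : Module.End ℂ g) ^ i) (yy w E z)) (hP.const _)
      (hP.vpow _ _ i (hP.uu w E) (hP.yy w E))
  have hscl : ∀ (c : ℂ) z, uu w E (scl w c z) = uu w E z ∧
      yy w E (scl w c z) = c • yy w E z := by
    intro c z
    constructor
    · unfold uu scl
      refine Finset.sum_congr rfl fun j _ => ?_
      split_ifs with hj
      · rw [hj, pow_zero, one_mul]
      · rfl
    · unfold yy scl
      rw [Finset.smul_sum]
      refine Finset.sum_congr rfl fun j _ => ?_
      split_ifs with hj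
      · rw [hj, pow_one, mul_smul]
      · rw [smul_zero]
  have hth : ∀ i, PV (fun z => th N (uu w E z) (E i)) := by
    intro i
    have e1 : (fun z => th N (uu w E z) (E i)) = fun z => ∑ k ∈ Finset.range (2 * N + 1),
        (((-1 : ℂ) ^ k) / ((k + 1).factorial : ℂ)) •
          ((LieAlgebra.ad ℂ g (uu w E z) : Module.End ℂ g) ^ k) (E i) := by
      funext z
      unfold th
      rw [LinearMap.sum_apply]
      rfl
    rw [e1]
    refine hP.vsum ℕ _ (fun k z => (((-1 : ℂ) ^ k) / ((k + 1).factorial : ℂ)) •
      ((LieAlgebra.ad ℂ g (uu w E z) : Module.End ℂ g) ^ k) (E i)) fun k _ => ?_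
    exact hP.vsmul (fun _ => ((-1 : ℂ) ^ k) / ((k + 1).factorial : ℂ))
      (fun z => ((LieAlgebra.ad ℂ g (uu w E z) : Module.End ℂ g) ^ k) (E i)) (hP.const _)
      (hP.vpow _ (fun _ => E i) k (hP.uu w E) (hP.vconst (E i)))
  refine ⟨huu, hyy, hphi, fun c z => ?_, hscl, fun j => ?_, fun i j => ?_⟩
  · unfold phi
    rw [(hscl c z).1, (hscl c z).2, map_smul]
  · classical
    obtain ⟨φ, hφ⟩ := ((Module.Basis.span hB.li).coord j).exists_extend
    have h1 : ∀ i, φ (E i) = if i = j then 1 else 0 := by
      intro i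
      have h2 := LinearMap.congr_fun hφ (Module.Basis.span hB.li i)
      rw [Module.Basis.coord_apply, Module.Basis.repr_self, Finsupp.single_apply] at h2
      rw [← h2, LinearMap.comp_apply, Submodule.subtype_apply, Module.Basis.span_apply]
    refine ⟨φ, fun z => ⟨fun hj => ?_, fun hj => ?_⟩⟩
    · unfold uu
      rw [map_sum, Finset.sum_eq_single j]
      · rw [if_pos hj, map_smul, h1, if_pos rfl, smul_eq_mul, mul_one]
      · intro i _ hij
        split_ifs with hi
        · rw [map_smul, h1, if_neg hij, smul_zero]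
        · rw [map_zero]
      · intro h2
        exact absurd (Finset.mem_univ j) h2
    · unfold yy
      rw [map_sum, Finset.sum_eq_single j]
      · rw [if_pos hj, map_smul, h1, if_pos rfl, smul_eq_mul, mul_one]
      · intro i _ hij
        split_ifs with hi
        · rw [map_smul, h1, if_neg hij, smul_zero]
        · rw [map_zero]
      · intro h2
        exact absurd (Finset.mem_univ j) h2
  · unfold om
    by_cases hi : w i = 0
    · by_cases hj : w j = 0
      · simp only [if_pos hi, if_pos hj]
        exact hP.vkil _ _ (hP.yy w E) (hP.vbr _ _ (hth i) (hth j))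
      · simp only [if_pos hi, if_neg hj]
        exact hP.vkil (fun _ => E j) _ (hP.vconst _) (hth i)
    · by_cases hj : w j = 0
      · simp only [if_neg hi, if_pos hj]
        have h1 := hP.mul (fun _ => (-1 : ℂ)) _ (hP.const (-1))
          (hP.vkil (fun _ => E i) _ (hP.vconst _) (hth j))
        have e1 : (fun z => -killingForm ℂ g (E i) (th N (uu w E z) (E j))) =
            fun z => (-1 : ℂ) * killingForm ℂ g (E i) (th N (uu w E z) (E j)) := by
          funext z
          ring
        rw [e1]
        exact h1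
      · simp only [if_neg hi, if_neg hj]
        exact hP.const 0

end Pool.Agent.Helper7.KPG
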